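import Pool.Agent.Y748.SR.Stm7

/-!
Job SR4-SINE: the sine process is strongly Rayleigh, for disjoint intervals.
-/

open Finset Filter Topology MeasureTheory

set_option autoImplicit false

namespace Pool.Agent.Y73.SR

open Pool.Agent.Y748.SR

/-- determinant of the sine kernel at the points of `B` and `x_1, …, x_k` -/
noncomputable def DD (B : Finset ℝ) {k : ℕ} (x : Fin k → ℝ) : ℝ :=
  Matrix.det (Matrix.of fun i j : B ⊕ Fin k =>
    sn (Sum.elim (fun y : B => (y : ℝ)) x i - Sum.elim (fun y : B => (y : ℝ)) x j))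

theorem sn_cont : Continuous sn := by
  unfold sn
  exact Real.continuous_sinc.comp (by fun_prop)

theorem DD_cont (B : Finset ℝ) (k : ℕ) : Continuous fun x : Fin k → ℝ => DD B x := by
  unfold DD
  apply Continuous.matrix_det
  apply continuous_matrix
  intro i j
  simp only [Matrix.of_apply]
  apply sn_cont.comp
  have h : ∀ i : B ⊕ Fin k, Continuous fun x : Fin k → ℝ => Sum.elim (fun y : B => (y : ℝ)) x i := by
    intro i
    rcases i with i | i
    · simp only [Sum.elim_inl]; exact continuous_const
    · simp only [Sum.elim_inr]; exact continuous_apply i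
  exact (h i).sub (h j)

theorem DD_empty {k : ℕ} (x : Fin k → ℝ) : DD ∅ x = sdet x := by
  unfold DD sdet
  rw [← Matrix.det_submatrix_equiv_self (Equiv.emptySum (∅ : Finset ℝ) (Fin k)).symm]
  rfl

theorem DD_zero (B : Finset ℝ) (x : Fin 0 → ℝ) : DD B x = gue B := by
  unfold DD gue
  rw [← Matrix.det_submatrix_equiv_self (Equiv.sumEmpty B (Fin 0)).symm]
  rfl

theorem DD_insert (B : Finset ℝ) (t : ℝ) (ht : t ∉ B) {k : ℕ} (x : Fin k → ℝ) :
    DD (insert t B) x = DD B (Fin.cons t x : Fin (k + 1) → ℝ) := by
  classical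
  let f : (B ⊕ Fin (k + 1)) → ((insert t B : Finset ℝ) ⊕ Fin k) := fun s => match s with
    | Sum.inl y => Sum.inl ⟨y, Finset.mem_insert_of_mem y.2⟩
    | Sum.inr j => Fin.cases (Sum.inl ⟨t, Finset.mem_insert_self t B⟩) (fun j => Sum.inr j) j
  have hf : Function.Bijective f := by
    rw [Fintype.bijective_iff_injective_and_card]
    constructor
    · rintro (y | j) (y' | j') h
      · simp only [f, Sum.inl.injEq, Subtype.mk.injEq] at h
        rw [Subtype.ext h]
      · revert h
        refine Fin.cases ?_ (fun j' => ?_) j'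
        · intro h
          simp only [f, Fin.cases_zero, Sum.inl.injEq, Subtype.mk.injEq] at h
          exact absurd (h ▸ y.2) ht
        · intro h
          simp [f] at h
      · revert h
        refine Fin.cases ?_ (fun j => ?_) j
        · intro h
          simp only [f, Fin.cases_zero, Sum.inl.injEq, Subtype.mk.injEq] at h
          exact absurd (h ▸ y'.2) ht
        · intro h
          simp [f] at h
      · revert h
        refine Fin.cases ?_ (fun j => ?_) j <;> refine Fin.cases ?_ (fun j' => ?_) j' <;>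
          intro h <;> simp_all [f]
    · simp [ht]
      omega
  let e := Equiv.ofBijective f hf
  unfold DD
  rw [← Matrix.det_submatrix_equiv_self e]
  congr 1
  ext i j
  have hs : ∀ i : B ⊕ Fin (k + 1), Sum.elim (fun y : (insert t B : Finset ℝ) => (y : ℝ)) x (e i) =
      Sum.elim (fun y : B => (y : ℝ)) (Fin.cons t x : Fin (k + 1) → ℝ) i := by
    rintro (y | j)
    · rfl
    · refine Fin.cases ?_ (fun j => ?_) j
      · rfl
      · rfl
  simp only [Matrix.submatrix_apply, Matrix.of_apply]
  rw [hs, hs]

/-- the box `∏ (a_i, b_i]` -/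
def box {k : ℕ} (a b : Fin k → ℝ) : Set (Fin k → ℝ) := Set.univ.pi fun i => Set.Ioc (a i) (b i)

theorem box_meas {k : ℕ} (a b : Fin k → ℝ) : MeasurableSet (box a b) :=
  MeasurableSet.univ_pi fun _ => measurableSet_Ioc

theorem box_sub {k : ℕ} (a b : Fin k → ℝ) : box a b ⊆ Set.Icc a b := by
  intro x hx
  exact ⟨fun i => (hx i trivial).1.le, fun i => (hx i trivial).2⟩

theorem int_box {k : ℕ} (a b : Fin k → ℝ) {F : (Fin k → ℝ) → ℝ} (hF : Continuous F) :
    IntegrableOn F (box a b) :=
  (hF.continuousOn.integrableOn_compact isCompact_Icc).mono_set (box_sub a b)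

/-- Fubini for boxes -/
theorem fubini {k : ℕ} (a b : Fin (k + 1) → ℝ) {F : (Fin (k + 1) → ℝ) → ℝ} (hF : Continuous F) :
    IntegrableOn (fun t : ℝ => ∫ x in box (fun i => a i.succ) (fun i => b i.succ),
      F (Fin.cons t x)) (Set.Ioc (a 0) (b 0)) ∧
    ∫ x in box a b, F x = ∫ t in Set.Ioc (a 0) (b 0),
      ∫ x in box (fun i => a i.succ) (fun i => b i.succ), F (Fin.cons t x) := by
  set e : ℝ × (Fin k → ℝ) ≃ᵐ (Fin (k + 1) → ℝ) :=
    (MeasurableEquiv.piFinSuccAbove (fun _ => ℝ) 0).symm with he
  have hem : MeasurePreserving e :=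
    (volume_preserving_piFinSuccAbove (fun _ : Fin (k + 1) => ℝ) 0).symm _
  have hee : ∀ p : ℝ × (Fin k → ℝ), e p = Fin.cons p.1 p.2 := by
    intro p
    rw [he]
    simp [MeasurableEquiv.piFinSuccAbove_symm_apply, Fin.insertNthEquiv]
  have hpre : e ⁻¹' (box a b) = Set.Ioc (a 0) (b 0) ×ˢ
      box (fun i => a i.succ) (fun i => b i.succ) := by
    ext p
    simp only [Set.mem_preimage, box, Set.mem_univ_pi, hee, Set.mem_prod]
    rw [Fin.forall_fin_succ]
    simp
  have hi : IntegrableOn (fun p : ℝ × (Fin k → ℝ) => F (Fin.cons p.1 p.2))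
      (Set.Ioc (a 0) (b 0) ×ˢ box (fun i => a i.succ) (fun i => b i.succ))
      ((volume : Measure ℝ).prod volume) := by
    have h1 := (hem.integrableOn_comp_preimage e.measurableEmbedding).2 (int_box a b hF)
    rw [hpre] at h1
    have h2 : (F ∘ e) = fun p : ℝ × (Fin k → ℝ) => F (Fin.cons p.1 p.2) := by
      ext p
      simp [hee]
    rw [h2] at h1
    exact h1
  constructor
  · unfold IntegrableOn at hi ⊢
    rw [← Measure.prod_restrict] at hi
    exact hi.integral_prod_left
  · rw [← hem.map_eq, setIntegral_map_equiv, hpre]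
    simp only [hee]
    rw [Measure.volume_eq_prod, setIntegral_prod _ hi]


/-- the sum over the subsets of `Fin (n + 1)` -/
theorem sum_split {n : ℕ} (F : Finset (Fin (n + 1)) → ℂ) :
    ∑ S : Finset (Fin (n + 1)), F S = ∑ S : Finset (Fin n), F (S.map (Fin.succEmb n)) +
      ∑ S : Finset (Fin n), F (insert 0 (S.map (Fin.succEmb n))) := by
  classical
  have h0 : (Finset.univ : Finset (Fin (n + 1))) =
      insert 0 ((Finset.univ : Finset (Fin n)).map (Fin.succEmb n)) := by
    ext i
    refine Fin.cases ?_ (fun i => ?_) i <;> simp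
  have hn : (0 : Fin (n + 1)) ∉ (Finset.univ : Finset (Fin n)).map (Fin.succEmb n) := by
    simp
  have h1 : ∀ G : Finset (Fin (n + 1)) → ℂ,
      ∑ S ∈ ((Finset.univ : Finset (Fin n)).map (Fin.succEmb n)).powerset, G S =
        ∑ S : Finset (Fin n), G (S.map (Fin.succEmb n)) := by
    intro G
    symm
    refine Finset.sum_nbij (fun S => S.map (Fin.succEmb n)) ?_ ?_ ?_ ?_
    · intro S _
      rw [Finset.mem_powerset]
      exact Finset.map_subset_map.2 (Finset.subset_univ _)
    · intro S _ S' _ h
      exact Finset.map_injective _ h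
    · intro T hT
      rw [Finset.mem_coe, Finset.mem_powerset, Finset.subset_map_iff] at hT
      obtain ⟨u, _, hu⟩ := hT
      exact ⟨u, Finset.mem_coe.2 (Finset.mem_univ _), hu.symm⟩
    · intro S _
      rfl
  rw [← Finset.powerset_univ, h0, Finset.sum_powerset_insert hn, h1,
    h1 (fun S => F (insert 0 S))]

theorem box_cast {n k : ℕ} (S : Finset (Fin n)) (h : S.card = k) (a b : Fin n → ℝ)
    (F : ∀ k : ℕ, (Fin k → ℝ) → ℝ) :
    ∫ x in box (fun i => a (S.orderEmbOfFin rfl i)) (fun i => b (S.orderEmbOfFin rfl i)),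
      F S.card x = ∫ x in box (fun i => a (S.orderEmbOfFin h i))
        (fun i => b (S.orderEmbOfFin h i)), F k x := by
  subst h
  rfl

theorem ord_map {n : ℕ} (S : Finset (Fin n)) (h : (S.map (Fin.succEmb n)).card = S.card)
    (i : Fin S.card) : (S.map (Fin.succEmb n)).orderEmbOfFin h i =
      (S.orderEmbOfFin rfl i).succ := by
  have := Finset.orderEmbOfFin_unique h (f := fun i => (S.orderEmbOfFin rfl i).succ)
    (fun i => Finset.mem_map.2 ⟨_, Finset.orderEmbOfFin_mem S rfl i, rfl⟩)
    (fun i j hij => Fin.succ_lt_succ_iff.2 ((S.orderEmbOfFin rfl).strictMono hij))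
  exact (congrFun this i).symm

theorem ord_ins {n : ℕ} (S : Finset (Fin n))
    (h : (insert 0 (S.map (Fin.succEmb n))).card = S.card + 1) (i : Fin (S.card + 1)) :
    (insert 0 (S.map (Fin.succEmb n))).orderEmbOfFin h i =
      (Fin.cons 0 (fun j => (S.orderEmbOfFin rfl j).succ) : Fin (S.card + 1) → Fin (n + 1)) i := by
  have := Finset.orderEmbOfFin_unique h
    (f := (Fin.cons 0 (fun j => (S.orderEmbOfFin rfl j).succ) : Fin (S.card + 1) → Fin (n + 1)))
    (by
      intro i
      refine Fin.cases ?_ (fun i => ?_) i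
      · simp
      · rw [Fin.cons_succ]
        exact Finset.mem_insert_of_mem (Finset.mem_map.2 ⟨_, Finset.orderEmbOfFin_mem S rfl i, rfl⟩))
    (by
      intro i j
      refine Fin.cases ?_ (fun i => ?_) i <;> refine Fin.cases ?_ (fun j => ?_) j <;> intro hij
      · simp at hij
      · simp [Fin.succ_pos]
      · simp at hij
      · simp only [Fin.cons_succ]
        exact Fin.succ_lt_succ_iff.2 ((S.orderEmbOfFin rfl).strictMono
          (Fin.succ_lt_succ_iff.1 hij)))
  exact (congrFun this i).symm

/-- the coefficients after the integration over the intervals -/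
noncomputable def gg (n : ℕ) (a b : Fin n → ℝ) (z : Fin n → ℂ) (B : Finset ℝ) : ℂ :=
  ∑ S : Finset (Fin n), ((∫ x in box (fun i => a (S.orderEmbOfFin rfl i))
    (fun i => b (S.orderEmbOfFin rfl i)), DD B x : ℝ) : ℂ) * ∏ i ∈ S, z i

theorem gg_zero (a b : Fin 0 → ℝ) (z : Fin 0 → ℂ) (B : Finset ℝ) : gg 0 a b z B = gue B := by
  unfold gg
  rw [Fintype.sum_unique]
  have h1 : (default : Finset (Fin 0)) = ∅ := Subsingleton.elim _ _
  rw [h1, Finset.prod_empty, mul_one]
  have h2 : ∫ x in box (fun i => a ((∅ : Finset (Fin 0)).orderEmbOfFin rfl i))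
      (fun i => b ((∅ : Finset (Fin 0)).orderEmbOfFin rfl i)), DD B x = gue B := by
    have h3 := box_cast (∅ : Finset (Fin 0)) (k := 0) (by simp) a b (fun k x => DD B x)
    rw [h3]
    have h4 : box (fun i => a ((∅ : Finset (Fin 0)).orderEmbOfFin (k := 0) (by simp) i))
      (fun i => b ((∅ : Finset (Fin 0)).orderEmbOfFin (k := 0) (by simp) i)) = Set.univ := by
      ext x
      simp [box]
    rw [h4, Measure.restrict_univ, volume_pi, Measure.pi_of_empty _ Fin.elim0, integral_dirac,
      DD_zero]
  rw [h2]

theorem gg_succ (n : ℕ) (a b : Fin (n + 1) → ℝ) (z : Fin (n + 1) → ℂ) (B : Finset ℝ)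
    (hB : ∀ t ∈ Set.Ioc (a 0) (b 0), t ∉ B) :
    IntegrableOn (fun t => gg n (fun i => a i.succ) (fun i => b i.succ) (fun i => z i.succ)
      (insert t B)) (Set.Ioc (a 0) (b 0)) ∧
    gg (n + 1) a b z B =
      gg n (fun i => a i.succ) (fun i => b i.succ) (fun i => z i.succ) B +
      z 0 * ∫ t in Set.Ioc (a 0) (b 0),
        gg n (fun i => a i.succ) (fun i => b i.succ) (fun i => z i.succ) (insert t B) := by
  classical
  have hterm : ∀ S : Finset (Fin n), IntegrableOn (fun t : ℝ =>
      ((∫ x in box (fun i => a (S.orderEmbOfFin rfl i).succ)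
        (fun i => b (S.orderEmbOfFin rfl i).succ), DD (insert t B) x : ℝ) : ℂ) *
        ∏ i ∈ S, z i.succ) (Set.Ioc (a 0) (b 0)) ∧
      ∫ t in Set.Ioc (a 0) (b 0), ((∫ x in box (fun i => a (S.orderEmbOfFin rfl i).succ)
        (fun i => b (S.orderEmbOfFin rfl i).succ), DD (insert t B) x : ℝ) : ℂ) *
        ∏ i ∈ S, z i.succ = ((∫ x in box (fun i => a ((insert 0 (S.map (Fin.succEmb n))).orderEmbOfFin rfl i))
        (fun i => b ((insert 0 (S.map (Fin.succEmb n))).orderEmbOfFin rfl i)), DD B x : ℝ) : ℂ) *
        ∏ i ∈ S, z i.succ := by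
    intro S
    have hc : (insert 0 (S.map (Fin.succEmb n))).card = S.card + 1 := by
      rw [Finset.card_insert_of_notMem (by simp), Finset.card_map]
    have hF := fubini (k := S.card)
      (fun i => a ((insert 0 (S.map (Fin.succEmb n))).orderEmbOfFin hc i))
      (fun i => b ((insert 0 (S.map (Fin.succEmb n))).orderEmbOfFin hc i)) (DD_cont B _)
    simp only [ord_ins S hc, Fin.cons_zero, Fin.cons_succ] at hF
    have hcongr : ∀ t ∈ Set.Ioc (a 0) (b 0),
        ((∫ x in box (fun i => a (S.orderEmbOfFin rfl i).succ)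
        (fun i => b (S.orderEmbOfFin rfl i).succ), DD (insert t B) x : ℝ) : ℂ) *
        ∏ i ∈ S, z i.succ = ((∫ x in box (fun i => a (S.orderEmbOfFin rfl i).succ)
        (fun i => b (S.orderEmbOfFin rfl i).succ), DD B (Fin.cons t x : Fin (S.card + 1) → ℝ) : ℝ) : ℂ) *
        ∏ i ∈ S, z i.succ := by
      intro t ht
      simp only [DD_insert B t (hB t ht)]
    constructor
    · refine IntegrableOn.congr_fun ?_ (fun t ht => (hcongr t ht).symm) measurableSet_Ioc
      exact (hF.1.ofReal).mul_const _
    · rw [setIntegral_congr_fun measurableSet_Ioc hcongr, integral_mul_const]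
      congr 1
      have h3 := box_cast (insert 0 (S.map (Fin.succEmb n))) hc a b (fun k x => DD B x)
      rw [h3]
      simp only [ord_ins S hc]
      rw [hF.2]
      exact integral_ofReal
  constructor
  · unfold gg
    exact integrable_finsetSum _ fun S _ => (hterm S).1
  · have h0 : ∫ t in Set.Ioc (a 0) (b 0),
        gg n (fun i => a i.succ) (fun i => b i.succ) (fun i => z i.succ) (insert t B) =
      ∑ S : Finset (Fin n), ((∫ x in box (fun i => a ((insert 0 (S.map (Fin.succEmb n))).orderEmbOfFin rfl i))
        (fun i => b ((insert 0 (S.map (Fin.succEmb n))).orderEmbOfFin rfl i)), DD B x : ℝ) : ℂ) *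
        ∏ i ∈ S, z i.succ := by
      unfold gg
      rw [integral_finsetSum _ fun S _ => (hterm S).1]
      exact Finset.sum_congr rfl fun S _ => (hterm S).2
    rw [h0]
    unfold gg
    rw [sum_split, Finset.mul_sum]
    congr 1
    · refine Finset.sum_congr rfl fun S _ => ?_
      have hc : (S.map (Fin.succEmb n)).card = S.card := Finset.card_map _
      have h3 := box_cast (S.map (Fin.succEmb n)) hc a b (fun k x => DD B x)
      rw [h3]
      simp only [ord_map S hc]
      rw [Finset.prod_map]
      rfl
    · refine Finset.sum_congr rfl fun S _ => ?_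
      rw [Finset.prod_insert (by simp), Finset.prod_map]
      simp only [Fin.coe_succEmb]
      ring

/-- integration over one interval preserves stability -/
theorem stab (hg : Stable gue) : ∀ (n : ℕ) (a b : Fin n → ℝ) (z : Fin n → ℂ), Dis a b →
    (∀ i, 0 < (z i).im) → ∀ (Y : Finset ℝ) (w : ℝ → ℂ), (∀ y ∈ Y, 0 < (w y).im) →
    (∀ y ∈ Y, ∀ i, y ∉ Set.Ioc (a i) (b i)) →
    ∑ B ∈ Y.powerset, gg n a b z B * ∏ y ∈ B, w y ≠ 0 := by
  intro n
  induction n with
  | zero =>
    intro a b z _ _ Y w hw _
    simp only [gg_zero]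
    exact hg Y w hw
  | succ n ih =>
    intro a b z hd hz Y w hw hY
    have hd' : Dis (fun i : Fin n => a i.succ) (fun i => b i.succ) :=
      ⟨fun i => hd.1 _, fun i j hij => hd.2 _ _ (Fin.succ_lt_succ_iff.2 hij)⟩
    have hz' : ∀ i : Fin n, 0 < (z i.succ).im := fun i => hz _
    set g : Finset ℝ → ℂ := gg n (fun i => a i.succ) (fun i => b i.succ) (fun i => z i.succ)
      with hgd
    have hnB : ∀ B ∈ Y.powerset, ∀ t ∈ Set.Ioc (a 0) (b 0), t ∉ B := by
      intro B hB t ht htB
      exact hY t (Finset.mem_powerset.1 hB htB) 0 ht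
    have hF : ∑ B ∈ Y.powerset, g B * ∏ y ∈ B, w y ≠ 0 :=
      ih _ _ _ hd' hz' Y w hw fun y hy i => hY y hy _
    set F : ℂ := ∑ B ∈ Y.powerset, g B * ∏ y ∈ B, w y with hFd
    set Ft : ℝ → ℂ := fun t => ∑ B ∈ Y.powerset, g (insert t B) * ∏ y ∈ B, w y with hFt
    have hint : ∀ B ∈ Y.powerset, IntegrableOn (fun t => g (insert t B) * ∏ y ∈ B, w y)
        (Set.Ioc (a 0) (b 0)) := fun B hB =>
      ((gg_succ n a b z B (hnB B hB)).1).mul_const _
    have hsum : ∑ B ∈ Y.powerset, gg (n + 1) a b z B * ∏ y ∈ B, w y =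
        F + z 0 * ∫ t in Set.Ioc (a 0) (b 0), Ft t := by
      rw [hFt, integral_finsetSum _ hint, hFd, Finset.mul_sum, ← Finset.sum_add_distrib]
      refine Finset.sum_congr rfl fun B hB => ?_
      rw [(gg_succ n a b z B (hnB B hB)).2, integral_mul_const]
      ring
    have hc : ∀ t ∈ Set.Ioc (a 0) (b 0), (Ft t / F).im ≤ 0 := by
      intro t ht
      by_contra hcon
      push Not at hcon
      have htY : t ∉ Y := fun h => hY t h 0 ht
      have hne : Ft t ≠ 0 := by
        intro h0
        rw [h0] at hcon
        simp at hcon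
      set v : ℂ := - (F / Ft t) with hv
      have hvim : 0 < v.im := by
        have h1 : v = - (Ft t / F)⁻¹ := by rw [hv, inv_div]
        rw [h1, Complex.neg_im, Complex.inv_im]
        have h2 : 0 < Complex.normSq (Ft t / F) := Complex.normSq_pos.2 (div_ne_zero hne hF)
        rw [neg_div, neg_neg]
        exact div_pos hcon h2
      classical
      have h3 := ih _ _ _ hd' hz' (insert t Y) (Function.update w t v) (by
        intro y hy
        rcases Finset.mem_insert.1 hy with h | h
        · rw [h, Function.update_self]; exact hvim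
        · have hyt : y ≠ t := fun h' => htY (h' ▸ h)
          rw [Function.update_of_ne hyt]
          exact hw y h) (by
        intro y hy i hi
        rcases Finset.mem_insert.1 hy with h | h
        · rw [h] at hi
          have := hd.2 0 i.succ (Fin.succ_pos i)
          exact absurd hi.1 (not_lt.2 (ht.2.trans this))
        · exact hY y h _ hi)
      apply h3
      rw [Finset.sum_powerset_insert htY]
      have e1 : ∑ B ∈ Y.powerset, g B * ∏ y ∈ B, Function.update w t v y = F := by
        refine Finset.sum_congr rfl fun B hB => ?_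
        congr 1
        refine Finset.prod_congr rfl fun y hy => ?_
        rw [Function.update_of_ne]
        intro h'
        have h'' := Finset.mem_powerset.1 hB hy
        rw [h'] at h''
        exact htY h''
      have e2 : ∑ B ∈ Y.powerset, g (insert t B) * ∏ y ∈ insert t B, Function.update w t v y =
          v * Ft t := by
        rw [hFt, Finset.mul_sum]
        refine Finset.sum_congr rfl fun B hB => ?_
        have htB : t ∉ B := fun h => htY (Finset.mem_powerset.1 hB h)
        rw [Finset.prod_insert htB, Function.update_self]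
        have : ∏ y ∈ B, Function.update w t v y = ∏ y ∈ B, w y := by
          refine Finset.prod_congr rfl fun y hy => ?_
          rw [Function.update_of_ne]
          intro h'
          exact htB (h' ▸ hy)
        rw [this]
        ring
      rw [e1, e2, hv]
      field_simp
      ring
    rw [hsum]
    intro h0
    set J : ℂ := ∫ t in Set.Ioc (a 0) (b 0), Ft t with hJ
    have hJim : (J / F).im ≤ 0 := by
      have h1 : J / F = ∫ t in Set.Ioc (a 0) (b 0), Ft t / F := by
        rw [integral_div]
      have h2 : IntegrableOn (fun t => Ft t / F) (Set.Ioc (a 0) (b 0)) :=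
        (integrable_finsetSum _ hint).div_const _
      rw [h1]
      have h3 : (∫ t in Set.Ioc (a 0) (b 0), Ft t / F).im =
          ∫ t in Set.Ioc (a 0) (b 0), (Ft t / F).im := by
        have := integral_im h2
        simpa using this.symm
      rw [h3]
      exact setIntegral_nonpos measurableSet_Ioc hc
    have hz0 : z 0 ≠ 0 := by
      intro h
      have := hz 0
      rw [h] at this
      simp at this
    have h4 : J / F = - (z 0)⁻¹ := by
      field_simp
      linear_combination h0
    rw [h4, Complex.neg_im, Complex.inv_im] at hJim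
    have h5 : 0 < Complex.normSq (z 0) := Complex.normSq_pos.2 hz0
    have h6 : 0 < -(-(z 0).im / Complex.normSq (z 0)) := by
      rw [neg_div, neg_neg]
      exact div_pos (hz 0) h5
    linarith

theorem t_SINE (hg : Stable gue) : S_SINE := by
  intro n a b hd z hz
  have h := stab hg n a b z hd hz ∅ (fun _ => 0) (by simp) (by simp)
  simp only [Finset.powerset_empty, Finset.sum_singleton, Finset.prod_empty, mul_one] at h
  unfold gg at h
  simp only [DD_empty] at h
  exact h

end Pool.Agent.Y73.SR
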