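import Mathlib
import Pool.Agent.Y748.SR.Stm

open Finset MeasureTheory

set_option autoImplicit false

namespace Pool.Agent.Y73.SR

open Pool.Agent.Y748.SR

theorem sn_int (u : ℝ) : sn u = ∫ t in (0:ℝ)..1, Real.cos (t * (Real.pi * u)) := by
  unfold sn
  by_cases h : Real.pi * u = 0
  · rw [h]; simp
  · rw [Real.sinc_of_ne_zero h, intervalIntegral.integral_comp_mul_right (f := Real.cos) h]
    simp [integral_cos]
    field_simp

theorem sn_symm (x y : ℝ) : sn (x - y) = sn (y - x) := by
  unfold sn
  rw [← Real.sinc_neg]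
  congr 1
  ring

theorem gue_nonneg (B : Finset ℝ) : 0 ≤ gue B := by
  unfold gue
  apply Matrix.PosSemidef.det_nonneg
  apply Matrix.PosSemidef.of_dotProduct_mulVec_nonneg
  · ext i j
    simp [Matrix.conjTranspose_apply, Matrix.of_apply]
    exact sn_symm _ _
  · intro x
    have e : star x ⬝ᵥ ((Matrix.of fun i j : B => sn ((i : ℝ) - j)).mulVec x) =
        ∫ t in (0:ℝ)..1, ((∑ i, x i * Real.cos (t * Real.pi * i)) ^ 2 +
          (∑ i, x i * Real.sin (t * Real.pi * i)) ^ 2) := by
      have e1 : ∀ t : ℝ, ((∑ i, x i * Real.cos (t * Real.pi * i)) ^ 2 +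
          (∑ i, x i * Real.sin (t * Real.pi * i)) ^ 2) =
          ∑ i : B, ∑ j : B, x i * x j * Real.cos (t * (Real.pi * ((i : ℝ) - j))) := by
        intro t
        rw [sq, sq, Finset.sum_mul_sum, Finset.sum_mul_sum, ← Finset.sum_add_distrib]
        refine Finset.sum_congr rfl fun i _ => ?_
        rw [← Finset.sum_add_distrib]
        refine Finset.sum_congr rfl fun j _ => ?_
        have : t * (Real.pi * ((i : ℝ) - j)) = t * Real.pi * i - t * Real.pi * j := by ring
        rw [this, Real.cos_sub]
        ring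
      simp_rw [e1]
      rw [intervalIntegral.integral_finsetSum]
      · simp only [dotProduct, Matrix.mulVec, Matrix.of_apply, Pi.star_apply, star_trivial,
          Finset.mul_sum]
        refine Finset.sum_congr rfl fun i _ => ?_
        rw [intervalIntegral.integral_finsetSum]
        · refine Finset.sum_congr rfl fun j _ => ?_
          rw [intervalIntegral.integral_const_mul, sn_int]
          ring
        · intro j _
          exact Continuous.intervalIntegrable (by fun_prop) _ _
      · intro i _
        exact Continuous.intervalIntegrable (by fun_prop) _ _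
    rw [e]
    exact intervalIntegral.integral_nonneg (by norm_num) fun t _ => by positivity

theorem t_GUE : S_GUE := by
  intro hmin
  refine ⟨?_, gue_nonneg⟩
  intro Y z hz h0
  have hm := hmin Y (fun x y => ((sn (x - y) : ℝ) : ℂ)) z
  have hdet : Matrix.det (1 + Matrix.of fun i j : Y => z i * ((sn ((i : ℝ) - j) : ℝ) : ℂ)) = 0 := by
    rw [hm, ← h0]
    refine Finset.sum_congr rfl fun B _ => ?_
    congr 1
    unfold gue
    have := RingHom.map_det Complex.ofRealHom (Matrix.of fun i j : B => sn ((i : ℝ) - j))
    rw [Complex.ofRealHom_eq_coe] at this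
    rw [this]
    congr 1
  obtain ⟨v, hv, hv0⟩ := Matrix.exists_mulVec_eq_zero_iff.mpr hdet
  set u : Y → ℂ := fun i => ∑ j : Y, ((sn ((i : ℝ) - j) : ℝ) : ℂ) * v j with hu
  have hvi : ∀ i : Y, v i = - (z i * u i) := by
    intro i
    have := congrFun hv0 i
    rw [Matrix.add_mulVec, Matrix.one_mulVec] at this
    simp only [Pi.add_apply, Matrix.mulVec, dotProduct, Matrix.of_apply, Pi.zero_apply] at this
    have e : ∑ j : Y, z i * ((sn ((i : ℝ) - j) : ℝ) : ℂ) * v j = z i * u i := by
      rw [hu]
      simp only [Finset.mul_sum, mul_assoc]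
    rw [e] at this
    exact eq_neg_of_add_eq_zero_left this
  have hS1 : (∑ i : Y, (starRingEnd ℂ) (u i) * v i).im = 0 := by
    rw [← Complex.conj_eq_iff_im]
    rw [map_sum]
    simp only [hu, map_mul, map_sum, Complex.conj_conj, Complex.conj_ofReal, Finset.sum_mul]
    rw [Finset.sum_comm]
    refine Finset.sum_congr rfl fun i _ => Finset.sum_congr rfl fun j _ => ?_
    rw [sn_symm]
    ring
  have hS2 : (∑ i : Y, (starRingEnd ℂ) (u i) * v i).im =
      - ∑ i : Y, (z i).im * Complex.normSq (u i) := by
    rw [Complex.im_sum, ← Finset.sum_neg_distrib]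
    refine Finset.sum_congr rfl fun i _ => ?_
    have : (starRingEnd ℂ) (u i) * v i = - (z i * (Complex.normSq (u i) : ℂ)) := by
      rw [hvi i, Complex.normSq_eq_conj_mul_self]
      ring
    rw [this]
    simp
  have hS3 : ∑ i : Y, (z i).im * Complex.normSq (u i) = 0 := by
    linarith
  have hz' : ∀ i : Y, 0 < (z i).im := fun i => hz i i.2
  have hu0 : ∀ i : Y, u i = 0 := by
    intro i
    have := (Finset.sum_eq_zero_iff_of_nonneg (fun i _ => mul_nonneg (hz' i).le
      (Complex.normSq_nonneg _))).1 hS3 i (Finset.mem_univ i)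
    rcases mul_eq_zero.1 this with h | h
    · exact absurd h (hz' i).ne'
    · exact Complex.normSq_eq_zero.1 h
  apply hv
  ext i
  rw [hvi i, hu0 i]
  simp

end Pool.Agent.Y73.SR
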