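import Mathlib
import Pool.Agent.Y748.SR.Stm

open Finset

set_option autoImplicit false

namespace Pool.Agent.Y73.SR

open Pool.Agent.Y748.SR

theorem t_3PT : S_3PT := by
  intro X _ f hR h0 h1 i j k hij hik hjk
  have key : ∀ t : ℝ, (1 + t * f {k}) * (f {i, j} + t * f {i, j, k}) ≤
      (f {i} + t * f {i, k}) * (f {j} + t * f {j, k}) := by
    intro t
    have h := hR ∅ {k} i j (fun _ => t) hij (by simp) (by simp) (by simpa using hik)
      (by simpa using hjk) (by simp)
    have e1 : ({k} : Finset X).powerset = {∅, {k}} := by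
      ext s; simp [Finset.subset_singleton_iff]
    have hne : (∅ : Finset X) ≠ {k} := (Finset.singleton_ne_empty k).symm
    unfold RayI PW at h
    rw [e1] at h
    simp only [Finset.sum_pair hne, Finset.prod_empty, Finset.prod_singleton, mul_one,
      Finset.empty_union, Finset.union_empty, h0] at h
    have e2 : (insert i (insert j (∅ : Finset X))) = {i, j} := by simp
    have e3 : (insert i (insert j (∅ : Finset X))) ∪ {k} = {i, j, k} := by
      ext x; simp
    have e4 : (insert i (∅ : Finset X)) ∪ {k} = {i, k} := by
      ext x; simp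
    have e5 : (insert j (∅ : Finset X)) ∪ {k} = {j, k} := by
      ext x; simp
    rw [e3, e4, e5, e2] at h
    have e6 : (insert i (∅ : Finset X)) = {i} := by simp
    have e7 : (insert j (∅ : Finset X)) = {j} := by simp
    rw [e6, e7] at h
    nlinarith [h]
  simp only [h1] at key
  set A := 1 - f {i, j} with hA
  set B := 1 - f {i, k} with hB
  set D := 1 - f {j, k} with hD
  set τ := f {i, j, k} - (1 - A - B - D) with hτ
  have q : ∀ t : ℝ, 0 ≤ (A + B * D - τ) * (t * t) + (2 * A - τ) * t + A := by
    intro t
    have := key t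
    have h1 : f {i, j} = 1 - A := by rw [hA]; ring
    have h2 : f {i, k} = 1 - B := by rw [hB]; ring
    have h3 : f {j, k} = 1 - D := by rw [hD]; ring
    have h4 : f {i, j, k} = τ + (1 - A - B - D) := by rw [hτ]; ring
    rw [h1, h2, h3, h4] at this
    nlinarith [this]
  have dd := discrim_le_zero q
  unfold discrim at dd
  have e : f {i, j, k} - (f {i, j} + f {i, k} + f {j, k} - 2) = τ := by
    rw [hτ, hA, hB, hD]; ring
  rw [e]
  nlinarith [dd]

end Pool.Agent.Y73.SR
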